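import Pool.Agent.KS6_46.RB.Sum

/-!
# No finite power decides: spaces whose first `n` powers are Rothberger, but not `ω`-Rothberger

A space is `ω`-Rothberger if and only if all its finite powers are Rothberger. In ZFC, for every
`n` there is a (first countable, zero-dimensional Hausdorff) space of size `ℵ₁` whose powers
`X, X², …, Xⁿ` are Rothberger, Hurewicz and projectively countable, while `X^(n+1)` is not even
Lindelöf; in particular `X` is not `ω`-Rothberger.

Let `T` be an Aronszajn tree. For a set `S` of limit ordinals let `T_S` be `T` with the nodes of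
height outside `S` isolated, while a node `t` of height in `S` has the neighbourhoods
`{t} ∪ {x : x` strictly above `t | ξ`, not above `t}`. The space is the sum of `T_{S_0}, …, T_{S_n}`
where `S_i` is the union of the `P_j`, `j ≠ i`, for pairwise disjoint stationary sets
`P_0, …, P_n`. As the intersection of all the `S_i` is empty, the diagonal is an uncountable closed
discrete set in the product of all the `n + 1` spaces. A product of at most `n` of them misses an
index `i`, and all its sets contain the stationary set `P_i`. If for every `α` there were a tuple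
of nodes of heights at least `α` which is not in the given basic boxes around the tuples of lower
nodes, then by pressing down on `P_i` there would be an uncountable set of tuples such that any two
of them have a comparable coordinate; an ultrafilter argument turns this into an uncountable chain
of `T`.
-/

set_option autoImplicit false

namespace Pool.Agent.Results.MP_f9bcb0_lc.FinitePowers

open Set TopologicalSpace Pool.Agent.W634.AT Pool.Agent.KS6_46.RB
open scoped Cardinal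

/-- `𝒰` is an open cover of `X`. -/
def IsCover {X : Type} [TopologicalSpace X] (𝒰 : Set (Set X)) : Prop :=
  (∀ U ∈ 𝒰, IsOpen U) ∧ ⋃₀ 𝒰 = univ

/-- `𝒰` is an `ω`-cover of `X`: an open cover without `X` as a member, such that every finite
set lies in a member. -/
def IsOmegaCover {X : Type} [TopologicalSpace X] (𝒰 : Set (Set X)) : Prop :=
  IsCover 𝒰 ∧ univ ∉ 𝒰 ∧ ∀ F : Set X, F.Finite → ∃ U ∈ 𝒰, F ⊆ U

/-- The Rothberger property `S₁(O, O)`. -/
def Rothberger (X : Type) [TopologicalSpace X] : Prop :=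
  ∀ 𝒰 : ℕ → Set (Set X), (∀ n, IsCover (𝒰 n)) →
    ∃ U : ℕ → Set X, (∀ n, U n ∈ 𝒰 n) ∧ IsCover (range U)

/-- The property `S₁(Ω, Ω)`. -/
def OmegaRothberger (X : Type) [TopologicalSpace X] : Prop :=
  ∀ 𝒰 : ℕ → Set (Set X), (∀ n, IsOmegaCover (𝒰 n)) →
    ∃ U : ℕ → Set X, (∀ n, U n ∈ 𝒰 n) ∧ IsOmegaCover (range U)

/-- The Hurewicz property. -/
def Hurewicz (X : Type) [TopologicalSpace X] : Prop :=
  ∀ 𝒰 : ℕ → Set (Set X), (∀ n, IsCover (𝒰 n)) →
    ∃ F : ℕ → Set (Set X), (∀ n, (F n).Finite ∧ F n ⊆ 𝒰 n) ∧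
      ∀ x : X, ∃ m, ∀ n ≥ m, x ∈ ⋃₀ F n

/-- Every countable family of open covers has countable many common pieces. -/
def Pieces (X : Type) [TopologicalSpace X] : Prop :=
  ∀ 𝒰 : ℕ → Set (Set X), (∀ n, IsCover (𝒰 n)) →
    ∃ Pc : Set (Set X), Pc.Countable ∧ (∀ x, ∃ Q ∈ Pc, x ∈ Q) ∧
      ∀ n, ∀ Q ∈ Pc, ∃ U ∈ 𝒰 n, Q ⊆ U

lemma Pieces.seq {X : Type} [TopologicalSpace X] [Nonempty X] (h : Pieces X)
    (𝒰 : ℕ → Set (Set X)) (h𝒰 : ∀ n, IsCover (𝒰 n)) :
    ∃ P : ℕ → Set X, (∀ x, ∃ k, x ∈ P k) ∧ ∀ n k, ∃ U ∈ 𝒰 n, P k ⊆ U := by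
  obtain ⟨Pc, h1, h2, h3⟩ := h 𝒰 h𝒰
  have hne : Pc.Nonempty := by
    obtain ⟨Q, hQ, -⟩ := h2 (Classical.arbitrary X)
    exact ⟨Q, hQ⟩
  obtain ⟨f, hf⟩ := h1.exists_eq_range hne
  refine ⟨f, fun x => ?_, fun n k => h3 n (f k) (by rw [hf]; exact mem_range_self k)⟩
  obtain ⟨Q, hQ, hx⟩ := h2 x
  rw [hf] at hQ
  obtain ⟨k, rfl⟩ := hQ
  exact ⟨k, hx⟩

lemma Pieces.rothberger {X : Type} [TopologicalSpace X] [Nonempty X] (h : Pieces X) :
    Rothberger X := by
  intro 𝒰 h𝒰
  obtain ⟨P, hP1, hP2⟩ := h.seq 𝒰 h𝒰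
  choose U hU hPU using fun n => hP2 n n
  refine ⟨U, hU, ?_, ?_⟩
  · rintro _ ⟨n, rfl⟩
    exact (h𝒰 n).1 _ (hU n)
  · rw [sUnion_eq_univ_iff]
    intro x
    obtain ⟨k, hk⟩ := hP1 x
    exact ⟨U k, ⟨k, rfl⟩, hPU k hk⟩

lemma Pieces.hurewicz {X : Type} [TopologicalSpace X] [Nonempty X] (h : Pieces X) :
    Hurewicz X := by
  intro 𝒰 h𝒰
  obtain ⟨P, hP1, hP2⟩ := h.seq 𝒰 h𝒰
  choose U hU hPU using hP2
  refine ⟨fun n => (fun k => U n k) '' {k | k ≤ n}, fun n => ⟨?_, ?_⟩, ?_⟩
  · exact (Set.finite_le_nat n).image _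
  · rintro _ ⟨k, _, rfl⟩
    exact hU n k
  · intro x
    obtain ⟨k, hk⟩ := hP1 x
    exact ⟨k, fun n hn => ⟨U n k, ⟨k, hn, rfl⟩, hPU n k hk⟩⟩

lemma Pieces.range_countable {X : Type} [TopologicalSpace X] [Nonempty X] (h : Pieces X)
    (f : X → ℝ) (hf : Continuous f) : (range f).Countable := by
  have hcov : ∀ n : ℕ,
      IsCover (range fun x : X => f ⁻¹' Metric.ball (f x) (1 / ((n : ℝ) + 1))) := by
    intro n
    refine ⟨?_, ?_⟩
    · rintro _ ⟨x, rfl⟩
      exact Metric.isOpen_ball.preimage hf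
    · rw [sUnion_eq_univ_iff]
      intro x
      refine ⟨_, ⟨x, rfl⟩, ?_⟩
      simp only [mem_preimage]
      exact Metric.mem_ball_self (by positivity)
  obtain ⟨P, hP1, hP2⟩ := h.seq _ hcov
  -- `f` is constant on every piece
  have h1 : ∀ k, ∀ x ∈ P k, ∀ y ∈ P k, f x = f y := by
    intro k x hx y hy
    by_contra hne
    have hpos : 0 < dist (f x) (f y) := dist_pos.mpr hne
    obtain ⟨n, hn⟩ := exists_nat_one_div_lt (half_pos hpos)
    obtain ⟨_, ⟨z, rfl⟩, hz⟩ := hP2 n k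
    have h2 := hz hx
    have h3 := hz hy
    simp only [mem_preimage, Metric.mem_ball] at h2 h3
    have h4 := dist_triangle_right (f x) (f y) (f z)
    linarith
  refine (Set.countable_iUnion fun k : ℕ => (Set.Subsingleton.countable
    (s := f '' P k) ?_)).mono ?_
  · rintro _ ⟨x, hx, rfl⟩ _ ⟨y, hy, rfl⟩
    exact h1 k x hx y hy
  · rintro _ ⟨x, rfl⟩
    obtain ⟨k, hk⟩ := hP1 x
    exact mem_iUnion.mpr ⟨k, x, hk, rfl⟩

/-- All finite powers of an `ω`-Rothberger space are Lindelöf. -/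
lemma OmegaRothberger.lindelof {X : Type} [TopologicalSpace X] (h : OmegaRothberger X) (m : ℕ) :
    LindelofSpace (Fin m → X) := by
  classical
  refine ⟨isLindelof_of_countable_subcover ?_⟩
  intro I O hO hcov
  by_contra hcon
  push Not at hcon
  let W : Set (Set X) := {U | IsOpen U ∧ ∃ c : Set I, c.Countable ∧
    {x : Fin m → X | ∀ i, x i ∈ U} ⊆ ⋃ i ∈ c, O i}
  have hfin : ∀ F : Set X, F.Finite → ∃ U ∈ W, F ⊆ U := by
    intro F hF
    have h1 : ∀ x : Fin m → X, ∃ (i : I) (u : Fin m → Set X), (∀ j, IsOpen (u j)) ∧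
        (∀ j, x j ∈ u j) ∧ {y | ∀ j, y j ∈ u j} ⊆ O i := by
      intro x
      obtain ⟨i, hi⟩ := mem_iUnion.mp (hcov (mem_univ x))
      obtain ⟨I', u, h2, h3⟩ := isOpen_pi_iff.mp (hO i) x hi
      refine ⟨i, fun j => if j ∈ I' then u j else univ, fun j => ?_, fun j => ?_, ?_⟩
      · by_cases hj : j ∈ I'
        · simp only [hj, if_true]
          exact (h2 j hj).1
        · simp only [hj, if_false]
          exact isOpen_univ
      · by_cases hj : j ∈ I'
        · simp only [hj, if_true]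
          exact (h2 j hj).2
        · simp only [hj, if_false]
          exact mem_univ _
      · intro y hy
        refine h3 fun j hj => ?_
        have h4 := hy j
        have hj' : j ∈ I' := hj
        simp only [hj', if_true] at h4
        exact h4
    choose i u hu1 hu2 hu3 using h1
    let G : Set (Fin m → X) := Set.pi univ fun _ => F
    have hG : G.Finite := Set.Finite.pi fun _ => hF
    let V : X → Set X := fun a => ⋂ x ∈ G, ⋂ (j : Fin m), ⋂ (_ : x j = a), u x j
    have hV : ∀ a, IsOpen (V a) := fun a => hG.isOpen_biInter fun x _ =>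
      isOpen_iInter_of_finite fun j => isOpen_iInter_of_finite fun _ => hu1 x j
    refine ⟨⋃ a ∈ F, V a, ⟨isOpen_biUnion fun a _ => hV a, i '' G, (hG.image i).countable, ?_⟩, ?_⟩
    · intro y hy
      have h2 : ∀ j, ∃ a ∈ F, y j ∈ V a := by
        intro j
        have h3 := hy j
        simp only [mem_iUnion, exists_prop] at h3
        exact h3
      choose a ha hya using h2
      have haG : a ∈ G := fun j _ => ha j
      rw [mem_iUnion₂]
      refine ⟨i a, ⟨a, haG, rfl⟩, hu3 a fun j => ?_⟩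
      have h3 := hya j
      simp only [V, mem_iInter] at h3
      exact h3 a haG j rfl
    · intro a ha
      rw [mem_iUnion₂]
      refine ⟨a, ha, ?_⟩
      simp only [V, mem_iInter]
      intro x _ j hj
      rw [← hj]
      exact hu2 x j
  have hW : IsOmegaCover W := by
    refine ⟨⟨fun U hU => hU.1, ?_⟩, ?_, hfin⟩
    · rw [sUnion_eq_univ_iff]
      intro x
      obtain ⟨U, hU, hx⟩ := hfin {x} (Set.finite_singleton x)
      exact ⟨U, hU, hx rfl⟩
    · rintro ⟨-, c, hc, hc'⟩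
      exact hcon c hc ((fun x _ => hc' (fun _ => mem_univ _)))
  obtain ⟨U, hU, -, -, h3⟩ := h (fun _ => W) (fun _ => hW)
  choose _ c hc hcU using hU
  refine hcon (⋃ n, c n) (countable_iUnion hc) ?_
  intro x _
  obtain ⟨_, ⟨n, rfl⟩, hn⟩ := h3 (range x) (Set.finite_range x)
  have h4 := hcU n (fun i => hn ⟨i, rfl⟩ : ∀ i, x i ∈ U n)
  rw [mem_iUnion₂] at h4 ⊢
  obtain ⟨i, hi, hx⟩ := h4
  exact ⟨i, mem_iUnion.mpr ⟨n, hi⟩, hx⟩

/-- A space is Rothberger if its first power is. -/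
lemma rothberger_of_pow_one {X : Type} [TopologicalSpace X] (h : Rothberger (Fin 1 → X)) :
    Rothberger X := by
  intro 𝒰 h𝒰
  obtain ⟨U, hU, hcov⟩ := h (fun n => (fun U => {x : Fin 1 → X | x 0 ∈ U}) '' 𝒰 n) (by
    intro n
    refine ⟨?_, ?_⟩
    · rintro _ ⟨U, hU, rfl⟩
      exact ((h𝒰 n).1 U hU).preimage (continuous_apply 0)
    · rw [sUnion_eq_univ_iff]
      intro x
      have h1 : x 0 ∈ ⋃₀ 𝒰 n := by rw [(h𝒰 n).2]; trivial
      obtain ⟨U, hU, hx⟩ := h1
      exact ⟨_, ⟨U, hU, rfl⟩, hx⟩)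
  choose V hV hVU using hU
  refine ⟨V, hV, ?_, ?_⟩
  · rintro _ ⟨n, rfl⟩
    exact (h𝒰 n).1 _ (hV n)
  · rw [sUnion_eq_univ_iff]
    intro x
    have h1 : (fun _ => x : Fin 1 → X) ∈ ⋃₀ range U := by rw [hcov.2]; trivial
    obtain ⟨_, ⟨n, rfl⟩, hn⟩ := h1
    rw [← hVU n] at hn
    exact ⟨V n, ⟨n, rfl⟩, hn⟩

/-- **Main theorem (ZFC).** For every `n` there is a first countable Hausdorff space `X` of size
`ℵ₁` with a base of clopen sets such that `X^k` is Rothberger and Hurewicz and all continuous real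
functions on `X^k` have countable range, for all `k ≤ n`, but `X^(n+1)` is not Lindelöf. For `n ≥ 1`
this is a Rothberger space which is not `ω`-Rothberger. -/
theorem result (n : ℕ) : ∃ (X : Type) (_ : TopologicalSpace X),
    T2Space X ∧ IsTopologicalBasis {s : Set X | IsClopen s} ∧ FirstCountableTopology X ∧
      #X = ℵ₁ ∧
      (∀ k ≤ n, Rothberger (Fin k → X) ∧ Hurewicz (Fin k → X) ∧
        ∀ f : (Fin k → X) → ℝ, Continuous f → (range f).Countable) ∧
      ¬ LindelofSpace (Fin (n + 1) → X) ∧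
      (1 ≤ n → Rothberger X) ∧ ¬ OmegaRothberger X := by
  classical
  obtain ⟨ι, _, _, hc, hu, hι⟩ := Pool.Agent.KS6_46.RB.exists_omega1
  obtain ⟨P', hP1, hP2⟩ := exists_disjoint_stats hc hu
  obtain ⟨T, ⟨A⟩⟩ := Pool.Agent.W634.AT.exists_tree hc hu
  have hunc : ¬ (univ : Set ι).Countable := by
    intro h
    obtain ⟨b, hb⟩ := hu _ h
    exact lt_irrefl b (hb b (mem_univ b))
  have hT : ¬ (univ : Set T).Countable := by
    intro h
    apply hunc
    have : (univ : Set ι) = A.ht '' univ := by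
      ext ξ
      simp only [mem_univ, image_univ, mem_range, true_iff]
      exact A.tall ξ
    rw [this]
    exact h.image _
  let P : Fin (n + 1) → Set ι := fun i => P' i.1
  let S : Fin (n + 1) → Set ι := fun i => ⋃ j ∈ {j | j ≠ i}, P j
  have hPS : ∀ i j, j ≠ i → P i ⊆ S j := by
    intro i j hij a ha
    simp only [S, mem_iUnion, exists_prop]
    exact ⟨i, fun h => hij h.symm, ha⟩
  have hS : ∀ a, ∃ i, a ∉ S i := by
    intro a
    by_contra hcon
    push Not at hcon
    have h0 := hcon 0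
    simp only [S, mem_iUnion, exists_prop] at h0
    obtain ⟨j, -, haj⟩ := h0
    have h1 := hcon j
    simp only [S, mem_iUnion, exists_prop] at h1
    obtain ⟨k, hkj, hak⟩ := h1
    have hkj' : k.1 ≠ j.1 := fun h => hkj (Fin.ext h)
    exact Set.disjoint_left.mp (hP2 _ _ hkj') hak haj
  obtain ⟨t0, -⟩ := A.tall (hu ∅ countable_empty).choose
  have hne : Nonempty (Sm A S) := ⟨⟨0, t0⟩⟩
  have hpc : ∀ k ≤ n, Pieces (Fin k → Sm A S) := by
    intro k hk 𝒰 h𝒰
    refine exists_pieces_pow hc hu A S P (fun i => hP1 i.1) hPS k hk 𝒰 (fun m => (h𝒰 m).1) ?_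
    intro m x
    have h1 : x ∈ ⋃₀ 𝒰 m := by rw [(h𝒰 m).2]; trivial
    exact h1
  have hnl := not_lindelof A hT S hS
  have hfc : ∀ i, FirstCountableTopology (Sp A (S i)) := fun i => sp_firstCountable hc A (S i)
  refine ⟨Sm A S, inferInstance, inferInstance, ?_, ?_, mk_sm A hι hT S, ?_, hnl, ?_, ?_⟩
  · refine isTopologicalBasis_of_isOpen_of_nhds (fun s hs => hs.isOpen) ?_
    rintro ⟨i, x⟩ U hx hU
    obtain ⟨V, h1, h2, h3⟩ := exists_clopen A (S i) _ (isOpen_sigma_iff.mp hU i) x hx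
    refine ⟨Sigma.mk i '' V, ?_, ⟨x, h2, rfl⟩, ?_⟩
    · exact ⟨Topology.IsClosedEmbedding.sigmaMk.isClosedMap _ h1.isClosed,
        isOpenMap_sigmaMk _ h1.isOpen⟩
    · rintro _ ⟨y, hy, rfl⟩
      exact h3 hy
  · refine ⟨fun x => ?_⟩
    obtain ⟨i, x⟩ := x
    rw [Sigma.nhds_mk]
    infer_instance
  · intro k hk
    exact ⟨(hpc k hk).rothberger, (hpc k hk).hurewicz,
      fun f hf => (hpc k hk).range_countable f hf⟩
  · intro hn
    exact rothberger_of_pow_one (hpc 1 hn).rothberger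
  · intro h
    exact hnl (h.lindelof (n + 1))

end Pool.Agent.Results.MP_f9bcb0_lc.FinitePowers
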